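import Mathlib

/-!
# MP_57d9fd_an: Fourier support of finitely supported distributions on real Grassmannians
Definitions
-/

namespace Pool.Agent.R246.GF

open scoped Topology
open Matrix Filter

noncomputable section

/-- points: real `n × n` matrices, as functions on pairs of indices -/
abbrev Pt (n : ℕ) := Fin n × Fin n → ℝ

/-- polynomials in the matrix entries -/
abbrev Pol (n : ℕ) := MvPolynomial (Fin n × Fin n) ℂ

/-- the matrix of a point -/
def M {n : ℕ} (P : Pt n) : Matrix (Fin n) (Fin n) ℝ := Matrix.of fun i j => P (i, j)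

/-- the Grassmannian: orthogonal projections of rank `k` -/
def Gr (n k : ℕ) : Set (Pt n) := {P | (M P).transpose = M P ∧ M P * M P = M P ∧ (M P).trace = k}

/-- evaluation of a polynomial -/
def ev {n : ℕ} (P : Pt n) : Pol n →ₐ[ℂ] ℂ := MvPolynomial.aeval fun rs => ((P rs : ℝ) : ℂ)

/-- the ideal of the Grassmannian -/
def IG (n k : ℕ) : Ideal (Pol n) where
  carrier := {φ | ∀ P ∈ Gr n k, ev P φ = 0}
  add_mem' := fun {a b} ha hb P hP => by rw [map_add, ha P hP, hb P hP, add_zero]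
  zero_mem' := fun P _ => map_zero _
  smul_mem' := fun c x hx P hP => by rw [smul_eq_mul, map_mul, hx P hP, mul_zero]

/-- the maximal ideal of a point -/
def mm {n : ℕ} (P : Pt n) : Ideal (Pol n) :=
  Ideal.span (Set.range fun rs : Fin n × Fin n =>
    (MvPolynomial.X rs - MvPolynomial.C ((P rs : ℝ) : ℂ) : Pol n))

/-- linear forms -/
def L {n : ℕ} (Y : Matrix (Fin n) (Fin n) ℝ) : Pol n :=
  ∑ r, ∑ s, MvPolynomial.C ((Y r s : ℝ) : ℂ) * MvPolynomial.X (r, s)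

/-- orthonormal systems `e_1, ..., e_κ, f_1, ..., f_κ` in `ℝⁿ` -/
def Frame {n κ : ℕ} (e f : Fin κ → Fin n → ℝ) : Prop :=
  (∀ a b, e a ⬝ᵥ e b = if a = b then 1 else 0) ∧ (∀ a b, f a ⬝ᵥ f b = if a = b then 1 else 0) ∧
    ∀ a b, e a ⬝ᵥ f b = 0

/-- the isotropic vectors `z_a = e_a + i f_a` -/
def zz {n κ : ℕ} (e f : Fin κ → Fin n → ℝ) (a : Fin κ) (r : Fin n) : ℂ :=
  (e a r : ℂ) + Complex.I * (f a r : ℂ)

/-- the matrix `(z_aᵀ P z_b)` -/
def BB {n κ : ℕ} (e f : Fin κ → Fin n → ℝ) (P : Pt n) : Matrix (Fin κ) (Fin κ) ℂ :=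
  Matrix.of fun a b => ∑ r, ∑ s, zz e f a r * ((P (r, s) : ℝ) : ℂ) * zz e f b s

/-- leading minors of a matrix: the one with the rows and columns `0, ..., j` -/
def lead {κ : ℕ} {R : Type*} [CommRing R] (B : Matrix (Fin κ) (Fin κ) R) (j : Fin κ) : R :=
  (B.submatrix (Fin.castLE (Nat.succ_le_of_lt j.2) : Fin ((j : ℕ) + 1) → Fin κ)
    (Fin.castLE (Nat.succ_le_of_lt j.2) : Fin ((j : ℕ) + 1) → Fin κ)).det

/-- `u_j(P)` = the leading minor of `(z_aᵀ P z_b)` -/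
def uu {n κ : ℕ} (e f : Fin κ → Fin n → ℝ) (j : Fin κ) (P : Pt n) : ℂ := lead (BB e f P) j

/-- the same as polynomials -/
def BP {n κ : ℕ} (e f : Fin κ → Fin n → ℝ) : Matrix (Fin κ) (Fin κ) (Pol n) :=
  Matrix.of fun a b => ∑ r, ∑ s,
    MvPolynomial.C (zz e f a r * zz e f b s) * MvPolynomial.X (r, s)

def uP {n κ : ℕ} (e f : Fin κ → Fin n → ℝ) (j : Fin κ) : Pol n := lead (BP e f) j

/-- the set of weights: even, weakly decreasing -/
def Lam (κ : ℕ) : Set (Fin κ → ℕ) := {l | Antitone l ∧ ∀ i, Even (l i)}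

/-- `(λ_j - λ_{j+1}) / 2`, with `λ_{κ+1} = 0` -/
def expo {κ : ℕ} (l : Fin κ → ℕ) (j : Fin κ) : ℕ :=
  (l j - if h : (j : ℕ) + 1 < κ then l ⟨(j : ℕ) + 1, h⟩ else 0) / 2

/-- the highest weight function of weight `λ` for the isotropic flag of a frame -/
def FW {n κ : ℕ} (e f : Fin κ → Fin n → ℝ) (l : Fin κ → ℕ) (P : Pt n) : ℂ :=
  ∏ j, uu e f j P ^ expo l j

/-- smooth functions on the space of matrices -/
def Sm (n : ℕ) : Submodule ℂ (Pt n → ℂ) where
  carrier := {φ | ContDiff ℝ ((⊤ : ℕ∞) : WithTop ℕ∞) φ}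
  add_mem' := by
    intro a b ha hb
    have ha' : ContDiff ℝ ((⊤ : ℕ∞) : WithTop ℕ∞) a := ha
    have hb' : ContDiff ℝ ((⊤ : ℕ∞) : WithTop ℕ∞) b := hb
    exact ha'.add hb'
  zero_mem' := by
    show ContDiff ℝ ((⊤ : ℕ∞) : WithTop ℕ∞) (fun _ : Pt n => (0 : ℂ))
    exact contDiff_const
  smul_mem' := by
    intro c φ hφ
    have hφ' : ContDiff ℝ ((⊤ : ℕ∞) : WithTop ℕ∞) φ := hφ
    exact hφ'.const_smul c

end

end Pool.Agent.R246.GF
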