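import Mathlib
import Pool.Agent.R246.GF.Defs

/-!
# MP_57d9fd_an: statements of the independent pieces (see NOTES.md)
-/

namespace Pool.Agent.R246.GF

open scoped Topology
open Matrix Filter

noncomputable section

/-- GF-COT: modulo squares and the ideal of the Grassmannian, the coordinates at a point are the
linear forms of the off-diagonal blocks. -/
def SCOT : Prop := ∀ (n k : ℕ) (P : Pt n), P ∈ Gr n k → ∀ r s : Fin n,
  ∃ Y : Matrix (Fin n) (Fin n) ℝ, (1 - M P) * Y * M P = Y ∧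
    (MvPolynomial.X (r, s) - MvPolynomial.C ((P (r, s) : ℝ) : ℂ) - L Y : Pol n)
      ∈ mm P ^ 2 ⊔ IG n k

/-- GF-POL: polarization. -/
def SPOL : Prop := ∀ (R : Type) [CommRing R] [Algebra ℂ R] (Φ : R →ₗ[ℂ] ℂ) (V : Set R) (m : ℕ),
  (∀ v ∈ V, ∀ w ∈ V, ∀ t : ℝ, v + algebraMap ℂ R (t : ℂ) * w ∈ V) →
  (∀ v ∈ V, Φ (v ^ m) = 0) →
  ∀ x : Fin m → R, (∀ i, x i ∈ V) → Φ (∏ i, x i) = 0

/-- GF-SVD: singular value decomposition of the off-diagonal block. -/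
def SSVD : Prop := ∀ (n k : ℕ) (P : Pt n), P ∈ Gr n k → k ≤ n →
  ∀ Y : Matrix (Fin n) (Fin n) ℝ, (1 - M P) * Y * M P = Y →
  ∃ (e f : Fin (min k (n - k)) → Fin n → ℝ) (t : Fin (min k (n - k)) → ℝ), Frame e f ∧
    (∀ a, M P *ᵥ e a = e a) ∧ (∀ a, M P *ᵥ f a = 0) ∧
    Y = ∑ a, t a • vecMulVec (f a) (e a)

/-- GF-DET: first order expansion of the minors at a point adapted to the frame. -/
def SDET : Prop := ∀ (n k κ : ℕ) (P : Pt n) (e f : Fin κ → Fin n → ℝ), P ∈ Gr n k → Frame e f →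
  (∀ a, M P *ᵥ e a = e a) → (∀ a, M P *ᵥ f a = 0) → ∀ j : Fin κ,
  (uP e f j - 1 - MvPolynomial.C (2 * Complex.I) *
    ∑ a ∈ Finset.univ.filter (fun a : Fin κ => a ≤ j), L (vecMulVec (f a) (e a)) : Pol n)
      ∈ mm P ^ 2 ⊔ IG n k

/-- GF-SEP: the minors of an adapted frame are all equal to one only at the point itself. -/
def SSEP : Prop := ∀ (n k : ℕ) (P Q : Pt n), k ≤ n → P ∈ Gr n k → Q ∈ Gr n k →
  ∀ e f : Fin (min k (n - k)) → Fin n → ℝ, Frame e f →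
  (∀ a, M P *ᵥ e a = e a) → (∀ a, M P *ᵥ f a = 0) → (∀ j, uu e f j Q = 1) → Q = P

/-- GF-CNT: relatively dense sets of weights have positive lower density. -/
def SCNT : Prop := ∀ (κ : ℕ), 0 < κ → ∀ (T : Set (Fin κ → ℕ)) (R0 : ℕ),
  (∀ x : Fin κ → ℕ, ∃ y : Fin κ → ℕ, (∀ i, x i ≤ y i ∧ y i ≤ x i + R0) ∧
    (fun i : Fin κ => 2 * ∑ j ∈ Finset.univ.filter (fun j : Fin κ => i ≤ j), y j) ∈ T) →
  0 < liminf (fun m : ℕ => (Nat.card {l : Fin κ → ℕ | l ∈ Lam κ ∧ l ∈ T ∧ ∑ i, l i ≤ 2 * m} : ℝ)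
    / (Nat.card {l : Fin κ → ℕ | l ∈ Lam κ ∧ ∑ i, l i ≤ 2 * m} : ℝ)) atTop

/-- GF-TAY: Taylor polynomials. -/
def STAY : Prop := ∀ (n : ℕ) (φ : Pt n → ℂ), ContDiff ℝ ((⊤ : ℕ∞) : WithTop ℕ∞) φ →
  ∀ (P : Pt n) (K : ℕ), ∃ p : Pol n, (fun X => φ X - ev X p) =O[𝓝 P] (fun X => ‖X - P‖ ^ K)

/-- GF-BIG: elements of the `K`-th power of the maximal ideal vanish to order `K`. -/
def SBIG : Prop := ∀ (n : ℕ) (P : Pt n) (K : ℕ) (p : Pol n), p ∈ mm P ^ K →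
  (fun X => ev X p) =O[𝓝 P] (fun X => ‖X - P‖ ^ K)

end

end Pool.Agent.R246.GF
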