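import Mathlib
import Pool.Agent.R246.GF.Stm

/-!
# Project GF: ideals of points, localisation, order of vanishing
-/

namespace Pool.Agent.R246.GF

open scoped Topology
open Matrix Filter Finset

noncomputable section

variable {n k : ℕ}

theorem ev_X (P : Pt n) (rs : Fin n × Fin n) : ev P (MvPolynomial.X rs) = ((P rs : ℝ) : ℂ) := by
  simp [ev]

theorem ev_C (P : Pt n) (c : ℂ) : ev P (MvPolynomial.C c) = c := by
  simp [ev]

theorem sub_C_mem (P : Pt n) (φ : Pol n) : φ - MvPolynomial.C (ev P φ) ∈ mm P := by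
  induction φ using MvPolynomial.induction_on with
  | C a => rw [ev_C, sub_self]; exact zero_mem _
  | add p q hp hq =>
    have : p + q - MvPolynomial.C (ev P (p + q))
        = (p - MvPolynomial.C (ev P p)) + (q - MvPolynomial.C (ev P q)) := by
      rw [map_add, map_add]; ring
    rw [this]
    exact add_mem hp hq
  | mul_X p rs hp =>
    have : p * MvPolynomial.X rs - MvPolynomial.C (ev P (p * MvPolynomial.X rs))
        = (p - MvPolynomial.C (ev P p)) * MvPolynomial.X rs
          + MvPolynomial.C (ev P p) * (MvPolynomial.X rs - MvPolynomial.C ((P rs : ℝ) : ℂ)) := by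
      rw [map_mul, ev_X, map_mul]; ring
    rw [this]
    refine add_mem (Ideal.mul_mem_right _ _ hp) (Ideal.mul_mem_left _ _ ?_)
    exact Ideal.subset_span ⟨rs, rfl⟩

theorem mem_mm {P : Pt n} {φ : Pol n} : φ ∈ mm P ↔ ev P φ = 0 := by
  constructor
  · intro h
    have hle : mm P ≤ RingHom.ker (ev P : Pol n →ₐ[ℂ] ℂ).toRingHom := by
      rw [mm, Ideal.span_le]
      rintro _ ⟨rs, rfl⟩
      simp only [SetLike.mem_coe, RingHom.mem_ker]
      show ev P (MvPolynomial.X rs - MvPolynomial.C ((P rs : ℝ) : ℂ)) = 0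
      rw [map_sub, ev_X, ev_C, sub_self]
    exact hle h
  · intro h
    have := sub_C_mem P φ
    rw [h, map_zero, sub_zero] at this
    exact this

theorem IG_le_mm {P : Pt n} (hP : P ∈ Gr n k) : IG n k ≤ mm P := fun φ hφ =>
  mem_mm.mpr (hφ P hP)

/-- points can be separated by polynomials -/
theorem exists_sep {P Q : Pt n} (h : P ≠ Q) : ∃ v : Pol n, ev P v = 1 ∧ ev Q v = 0 := by
  obtain ⟨rs, hrs⟩ := Function.ne_iff.mp h
  have hne : ((P rs : ℝ) : ℂ) - ((Q rs : ℝ) : ℂ) ≠ 0 := by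
    rw [sub_ne_zero]
    exact_mod_cast hrs
  refine ⟨MvPolynomial.C (((P rs : ℝ) : ℂ) - ((Q rs : ℝ) : ℂ))⁻¹
    * (MvPolynomial.X rs - MvPolynomial.C ((Q rs : ℝ) : ℂ)), ?_, ?_⟩
  · rw [map_mul, map_sub, ev_C, ev_C, ev_X, inv_mul_cancel₀ hne]
  · rw [map_mul, map_sub, ev_C, ev_C, ev_X, sub_self, mul_zero]

/-- localising elements, inside a subalgebra -/
theorem exists_loc (A : Subalgebra ℂ (Pol n)) (S : Finset (Pt n)) (P : Pt n) (K : ℕ)
    (hA : ∀ Q ∈ S, Q ≠ P → ∃ v ∈ A, ev P v = 1 ∧ ev Q v = 0) :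
    ∃ θ ∈ A, θ - 1 ∈ mm P ^ K ∧ ∀ Q ∈ S, Q ≠ P → θ ∈ mm Q ^ K := by
  classical
  have hr : ∃ r ∈ A, ev P r = 1 ∧ ∀ Q ∈ S, Q ≠ P → r ∈ mm Q ^ K := by
    induction S using Finset.induction_on with
    | empty => exact ⟨1, one_mem _, map_one _, fun Q hQ => absurd hQ (Finset.notMem_empty Q)⟩
    | insert Q S hQ ih =>
      obtain ⟨r, hrA, hr1, hr2⟩ := ih (fun Q' hQ' => hA Q' (mem_insert_of_mem hQ'))
      by_cases hQP : Q = P
      · refine ⟨r, hrA, hr1, fun Q' hQ' hne => ?_⟩
        rcases mem_insert.mp hQ' with rfl | h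
        · exact absurd hQP hne
        · exact hr2 Q' h hne
      · obtain ⟨v, hvA, hv1, hv2⟩ := hA Q (mem_insert_self _ _) hQP
        refine ⟨v ^ K * r, mul_mem (pow_mem hvA K) hrA, ?_, fun Q' hQ' hne => ?_⟩
        · rw [map_mul, map_pow, hv1, hr1, one_pow, one_mul]
        · rcases mem_insert.mp hQ' with rfl | h
          · exact Ideal.mul_mem_right _ _ (Ideal.pow_mem_pow (mem_mm.mpr hv2) K)
          · exact Ideal.mul_mem_left _ _ (hr2 Q' h hne)
  obtain ⟨r, hrA, hr1, hr2⟩ := hr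
  refine ⟨1 - (1 - r) ^ K, sub_mem (one_mem _) (pow_mem (sub_mem (one_mem _) hrA) K), ?_, ?_⟩
  · have h1 : 1 - (1 - r) ^ K - 1 = - (1 - r) ^ K := by ring
    rw [h1]
    refine neg_mem (Ideal.pow_mem_pow (mem_mm.mpr ?_) K)
    rw [map_sub, map_one, hr1, sub_self]
  · intro Q hQ hne
    have h1 : r ∣ 1 - (1 - r) ^ K := by
      have := sub_dvd_pow_sub_pow (1 : Pol n) (1 - r) K
      rw [sub_sub_cancel, one_pow] at this
      exact this
    obtain ⟨c, hc⟩ := h1
    rw [hc]
    exact Ideal.mul_mem_right _ _ (hr2 Q hQ hne)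

/-- elements that agree to first order have powers which agree to the next order -/
theorem pow_sub_pow_mem {R : Type*} [CommRing R] {I G : Ideal R} {x y : R} (hx : x ∈ I)
    (hy : y ∈ I) (h : x - y ∈ I ^ 2 ⊔ G) (m : ℕ) : x ^ m - y ^ m ∈ I ^ (m + 1) ⊔ G := by
  induction m with
  | zero => simp
  | succ m ih =>
    have e : x ^ (m + 1) - y ^ (m + 1) = x ^ m * (x - y) + (x ^ m - y ^ m) * y := by ring
    rw [e]
    refine add_mem ?_ ?_
    · obtain ⟨a, ha, b, hb, hab⟩ := Submodule.mem_sup.mp h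
      rw [← hab, mul_add]
      refine add_mem (Ideal.mem_sup_left ?_) (Ideal.mem_sup_right (Ideal.mul_mem_left _ _ hb))
      have : x ^ m * a ∈ I ^ m * I ^ 2 := Ideal.mul_mem_mul (Ideal.pow_mem_pow hx m) ha
      rw [← pow_add] at this
      exact this
    · obtain ⟨a, ha, b, hb, hab⟩ := Submodule.mem_sup.mp ih
      rw [← hab, add_mul]
      refine add_mem (Ideal.mem_sup_left ?_) (Ideal.mem_sup_right (Ideal.mul_mem_right _ _ hb))
      rw [pow_succ I (m + 1)]
      exact Ideal.mul_mem_mul ha hy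

/-- off-diagonal linear forms at a point -/
def VV (P : Pt n) : Set (Pol n) :=
  {v | ∃ Y : Matrix (Fin n) (Fin n) ℝ, (1 - M P) * Y * M P = Y ∧ v = L Y}

theorem L_add (Y Z : Matrix (Fin n) (Fin n) ℝ) : L (Y + Z) = L Y + L Z := by
  unfold L
  rw [← sum_add_distrib]
  refine sum_congr rfl fun r _ => ?_
  rw [← sum_add_distrib]
  refine sum_congr rfl fun s _ => ?_
  rw [Matrix.add_apply, Complex.ofReal_add, map_add, add_mul]

theorem L_smul (t : ℝ) (Y : Matrix (Fin n) (Fin n) ℝ) :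
    L (t • Y) = MvPolynomial.C (t : ℂ) * L Y := by
  unfold L
  rw [mul_sum]
  refine sum_congr rfl fun r _ => ?_
  rw [mul_sum]
  refine sum_congr rfl fun s _ => ?_
  rw [Matrix.smul_apply, smul_eq_mul, Complex.ofReal_mul, map_mul, mul_assoc]

theorem L_sum {ι : Type*} (s : Finset ι) (Y : ι → Matrix (Fin n) (Fin n) ℝ) :
    L (∑ i ∈ s, Y i) = ∑ i ∈ s, L (Y i) := by
  classical
  induction s using Finset.induction_on with
  | empty => simp [L]
  | insert i s hi ih => rw [sum_insert hi, sum_insert hi, L_add, ih]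

theorem VV_closed (P : Pt n) : ∀ v ∈ VV P, ∀ w ∈ VV P, ∀ t : ℝ,
    v + algebraMap ℂ (Pol n) (t : ℂ) * w ∈ VV P := by
  rintro _ ⟨Y, hY, rfl⟩ _ ⟨Z, hZ, rfl⟩ t
  refine ⟨Y + t • Z, ?_, ?_⟩
  · rw [mul_add, add_mul, hY, Matrix.mul_smul, Matrix.smul_mul, hZ]
  · rw [L_add, L_smul]
    rfl

/-- products of `m` off-diagonal forms span `mm P ^ m` modulo higher order -/
theorem span_pow (hCOT : SCOT) {P : Pt n} (hP : P ∈ Gr n k) (m : ℕ) : ∀ x ∈ mm P ^ m,
    ∃ w ∈ Submodule.span ℂ {z : Pol n | ∃ y : Fin m → Pol n, (∀ i, y i ∈ VV P) ∧ z = ∏ i, y i},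
      x - w ∈ mm P ^ (m + 1) ⊔ IG n k := by
  have h1 : ∀ x ∈ mm P, ∃ w ∈ Submodule.span ℂ (VV P), x - w ∈ mm P ^ 2 ⊔ IG n k := by
    intro x hx
    refine Submodule.span_induction (p := fun x _ => ∃ w ∈ Submodule.span ℂ (VV P),
      x - w ∈ mm P ^ 2 ⊔ IG n k) ?_ ?_ ?_ ?_ hx
    · rintro _ ⟨⟨r, s⟩, rfl⟩
      obtain ⟨Y, hY, hmem⟩ := hCOT n k P hP r s
      exact ⟨L Y, Submodule.subset_span ⟨Y, hY, rfl⟩, hmem⟩
    · exact ⟨0, zero_mem _, by rw [sub_zero]; exact zero_mem _⟩
    · rintro a b _ _ ⟨w, hw, hw2⟩ ⟨w', hw', hw2'⟩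
      refine ⟨w + w', add_mem hw hw', ?_⟩
      have : a + b - (w + w') = (a - w) + (b - w') := by ring
      rw [this]
      exact add_mem hw2 hw2'
    · rintro a b hb ⟨w, hw, hw2⟩
      have hb' : b ∈ mm P := hb
      refine ⟨(ev P a) • w, Submodule.smul_mem _ _ hw, ?_⟩
      have e : a • b - (ev P a) • w = (a - MvPolynomial.C (ev P a)) * b
          + MvPolynomial.C (ev P a) * (b - w) := by
        rw [smul_eq_mul, MvPolynomial.smul_eq_C_mul]; ring
      rw [e]
      refine add_mem (Ideal.mem_sup_left ?_) (Ideal.mul_mem_left _ _ hw2)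
      rw [pow_two]
      exact Ideal.mul_mem_mul (sub_C_mem P a) hb'
  induction m with
  | zero =>
    intro x _
    refine ⟨(ev P x) • 1, Submodule.smul_mem _ _ (Submodule.subset_span
      ⟨fun i => i.elim0, fun i => i.elim0, by simp⟩), Ideal.mem_sup_left ?_⟩
    rw [zero_add, pow_one, MvPolynomial.smul_eq_C_mul, mul_one]
    exact sub_C_mem P x
  | succ m ih =>
    intro x hx
    rw [pow_succ] at hx
    refine Submodule.mul_induction_on hx ?_ ?_
    · intro a ha b hb
      obtain ⟨w, hw, hw2⟩ := ih a ha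
      obtain ⟨v, hv, hv2⟩ := h1 b hb
      have hwv : w * v ∈ Submodule.span ℂ
          {z : Pol n | ∃ y : Fin (m + 1) → Pol n, (∀ i, y i ∈ VV P) ∧ z = ∏ i, y i} := by
        refine Submodule.span_induction (p := fun w _ => w * v ∈ Submodule.span ℂ
          {z : Pol n | ∃ y : Fin (m + 1) → Pol n, (∀ i, y i ∈ VV P) ∧ z = ∏ i, y i}) ?_ ?_ ?_ ?_ hw
        · rintro _ ⟨y, hy, rfl⟩
          refine Submodule.span_induction (p := fun v _ => (∏ i, y i) * v ∈ Submodule.span ℂ
            {z : Pol n | ∃ y : Fin (m + 1) → Pol n, (∀ i, y i ∈ VV P) ∧ z = ∏ i, y i})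
            ?_ ?_ ?_ ?_ hv
          · intro v hv
            refine Submodule.subset_span ⟨Fin.snoc y v, ?_, ?_⟩
            · intro i
              refine Fin.lastCases ?_ (fun j => ?_) i
              · rw [Fin.snoc_last]; exact hv
              · rw [Fin.snoc_castSucc]; exact hy j
            · rw [Fin.prod_univ_castSucc, Fin.snoc_last]
              simp only [Fin.snoc_castSucc]
          · rw [mul_zero]; exact zero_mem _
          · intro a b _ _ ha hb
            rw [mul_add]; exact add_mem ha hb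
          · intro c a _ ha
            rw [mul_smul_comm]; exact Submodule.smul_mem _ _ ha
        · rw [zero_mul]; exact zero_mem _
        · intro a b _ _ ha hb
          rw [add_mul]; exact add_mem ha hb
        · intro c a _ ha
          rw [smul_mul_assoc]; exact Submodule.smul_mem _ _ ha
      refine ⟨w * v, hwv, ?_⟩
      have hvm : v ∈ mm P := by
        have h2 : b - v ∈ mm P := by
          have hle : mm P ^ 2 ⊔ IG n k ≤ mm P :=
            sup_le (Ideal.pow_le_self two_ne_zero) (IG_le_mm hP)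
          exact hle hv2
        have : v = b - (b - v) := by ring
        rw [this]
        exact sub_mem hb h2
      have e : a * b - w * v = a * (b - v) + (a - w) * v := by ring
      rw [e]
      refine add_mem ?_ ?_
      · obtain ⟨a', ha', b', hb', hab⟩ := Submodule.mem_sup.mp hv2
        rw [← hab, mul_add]
        refine add_mem (Ideal.mem_sup_left ?_) (Ideal.mem_sup_right (Ideal.mul_mem_left _ _ hb'))
        have h3 : a * a' ∈ mm P ^ m * mm P ^ 2 := Ideal.mul_mem_mul ha ha'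
        rw [← pow_add] at h3
        exact h3
      · obtain ⟨a', ha', b', hb', hab⟩ := Submodule.mem_sup.mp hw2
        rw [← hab, add_mul]
        refine add_mem (Ideal.mem_sup_left ?_) (Ideal.mem_sup_right (Ideal.mul_mem_right _ _ hb'))
        rw [pow_succ (mm P) (m + 1)]
        exact Ideal.mul_mem_mul ha' hvm
    · rintro a b ⟨w, hw, hw2⟩ ⟨w', hw', hw2'⟩
      refine ⟨w + w', add_mem hw hw', ?_⟩
      have : a + b - (w + w') = (a - w) + (b - w') := by ring
      rw [this]
      exact add_mem hw2 hw2'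

end

end Pool.Agent.R246.GF
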