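import Mathlib
import Pool.Agent.R246.GF.Base
import Pool.Agent.R12.GF.Cot
import Pool.Agent.R141.GF.Pol
import Pool.Agent.R141.GF.Sep
import Pool.Agent.R341.GF.Svd
import Pool.Agent.R724.GF.Det

/-!
# Project GF: the algebraic core
-/

namespace Pool.Agent.R246.GF

open scoped Topology
open Matrix Filter Finset

noncomputable section

variable {n k : ℕ}

/-- evaluation of the polynomial minors -/
theorem ev_uP {κ : ℕ} (e f : Fin κ → Fin n → ℝ) (j : Fin κ) (P : Pt n) :
    ev P (uP e f j) = uu e f j P := by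
  unfold uP uu lead
  rw [AlgHom.map_det]
  congr 1
  ext a b
  simp only [AlgHom.mapMatrix_apply, Matrix.map_apply, Matrix.submatrix_apply, BP, BB,
    Matrix.of_apply, map_sum, map_mul, ev_C, ev_X]
  refine sum_congr rfl fun r _ => sum_congr rfl fun s _ => ?_
  ring

theorem ev_L_frame {κ : ℕ} {P : Pt n} (e f : Fin κ → Fin n → ℝ) (hF : Frame e f)
    (he : ∀ a, M P *ᵥ e a = e a) (a b : Fin κ) : ev P (L (vecMulVec (f a) (e b))) = 0 := by
  have h1 : ev P (L (vecMulVec (f a) (e b)))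
      = ((∑ r, f a r * ∑ s, P (r, s) * e b s : ℝ) : ℂ) := by
    unfold L
    rw [map_sum]
    push_cast
    refine sum_congr rfl fun r _ => ?_
    rw [map_sum, mul_sum]
    refine sum_congr rfl fun s _ => ?_
    rw [map_mul, ev_C, ev_X, vecMulVec_apply]
    push_cast
    ring
  have h2 : ∀ r, ∑ s, P (r, s) * e b s = e b r := by
    intro r
    have := congrFun (he b) r
    simpa [M, Matrix.mulVec, dotProduct] using this
  rw [h1]
  simp only [h2]
  have h3 := hF.2.2 b a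
  rw [dotProduct] at h3
  have h4 : ∑ r, f a r * e b r = 0 := by
    rw [← h3]
    exact sum_congr rfl fun r _ => mul_comm _ _
  rw [h4]
  simp

/-- data at a point: localised functional, its order, a nonzero power of a linear form -/
theorem exists_power {P : Pt n} (hP : P ∈ Gr n k)
    (Ψ : Pol n →ₗ[ℂ] ℂ) (K : ℕ) (hK : ∀ p ∈ mm P ^ K ⊔ IG n k, Ψ p = 0) (hΨ : Ψ ≠ 0) :
    ∃ (m : ℕ) (Y : Matrix (Fin n) (Fin n) ℝ), (1 - M P) * Y * M P = Y ∧
      (∀ p ∈ mm P ^ (m + 1) ⊔ IG n k, Ψ p = 0) ∧ Ψ (L Y ^ m) ≠ 0 := by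
  classical
  have hex : ∃ m, ∀ p ∈ mm P ^ m ⊔ IG n k, Ψ p = 0 := ⟨K, hK⟩
  have hspec := Nat.find_spec hex
  have hmin := fun m (hm : m < Nat.find hex) => Nat.find_min hex hm
  obtain ⟨m, hm⟩ : ∃ m, Nat.find hex = m + 1 := by
    refine Nat.exists_eq_succ_of_ne_zero fun h0 => hΨ ?_
    rw [h0, pow_zero, Ideal.one_eq_top, top_sup_eq] at hspec
    exact LinearMap.ext fun p => hspec p Submodule.mem_top
  rw [hm] at hspec
  have hnot := hmin m (by omega)
  push Not at hnot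
  obtain ⟨p, hp, hp2⟩ := hnot
  obtain ⟨a, ha, b, hb, hab⟩ := Submodule.mem_sup.mp hp
  have hΨa : Ψ a ≠ 0 := by
    have h1 : Ψ b = 0 := hspec b (Ideal.mem_sup_right hb)
    rw [← hab, map_add, h1, add_zero] at hp2
    exact hp2
  obtain ⟨w, hw, hw2⟩ := span_pow Pool.Agent.R12.GF.cot hP m a ha
  have hΨw : Ψ w ≠ 0 := by
    have h1 := hspec _ hw2
    rw [map_sub, sub_eq_zero] at h1
    rw [← h1]
    exact hΨa
  have hV : ∃ v ∈ VV P, Ψ (v ^ m) ≠ 0 := by
    by_contra hno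
    push Not at hno
    have h1 := Pool.Agent.R141.GF.pol (Pol n) Ψ (VV P) m ⟨L 0, 0, by simp, rfl⟩ (VV_closed P) hno
    apply hΨw
    refine Submodule.span_induction (p := fun w _ => Ψ w = 0) ?_ ?_ ?_ ?_ hw
    · rintro _ ⟨y, hy, rfl⟩
      exact h1 y hy
    · exact map_zero _
    · intro x y _ _ hx hy
      rw [map_add, hx, hy, add_zero]
    · intro c x _ hx
      rw [map_smul, hx, smul_zero]
  obtain ⟨_, ⟨Y, hY, rfl⟩, hne⟩ := hV
  exact ⟨m, Y, hY, hspec, hne⟩

/-- adapted frame with a nonzero power of a combination of the minors -/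
theorem exists_frame (hkn : k ≤ n)
    {P : Pt n} (hP : P ∈ Gr n k)
    (Ψ : Pol n →ₗ[ℂ] ℂ) (K : ℕ) (hK : ∀ p ∈ mm P ^ K ⊔ IG n k, Ψ p = 0) (hΨ : Ψ ≠ 0) :
    ∃ (e f : Fin (min k (n - k)) → Fin n → ℝ), Frame e f ∧ (∀ a, M P *ᵥ e a = e a) ∧
      (∀ a, M P *ᵥ f a = 0) ∧ (∀ j, ev P (uP e f j) = 1) ∧
      ∃ (m : ℕ) (w : Pol n), w ∈ Algebra.adjoin ℂ (Set.range (uP e f)) ∧ w ∈ mm P ∧
        (∀ p ∈ mm P ^ (m + 1) ⊔ IG n k, Ψ p = 0) ∧ Ψ (w ^ m) ≠ 0 := by
  classical
  obtain ⟨m, Y, hY, hm, hne⟩ := exists_power hP Ψ K hK hΨ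
  obtain ⟨e, f, t, hF, he, hf, hYs⟩ := Pool.Agent.R341.GF.svd n k P hP hkn Y hY
  have hle : mm P ^ 2 ⊔ IG n k ≤ mm P :=
    sup_le (Ideal.pow_le_self two_ne_zero) (IG_le_mm hP)
  have hu1 : ∀ j, ev P (uP e f j) = 1 := by
    intro j
    have h1 := mem_mm.mp (hle (Pool.Agent.R724.GF.det n k _ P e f hP hF he hf j))
    rw [map_sub, map_sub, map_one, map_mul, ev_C, map_sum] at h1
    simp only [ev_L_frame e f hF he, sum_const_zero, mul_zero, sub_zero] at h1
    exact sub_eq_zero.mp h1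
  set A := Algebra.adjoin ℂ (Set.range (uP e f)) with hA
  have huA : ∀ j, uP e f j ∈ A := fun j => Algebra.subset_adjoin ⟨j, rfl⟩
  -- the differences of consecutive minors
  have hw : ∀ a, ∃ w ∈ A, w - MvPolynomial.C (2 * Complex.I) * L (vecMulVec (f a) (e a))
      ∈ mm P ^ 2 ⊔ IG n k := by
    intro a
    rcases Nat.eq_zero_or_pos (a : ℕ) with h0 | h0
    · refine ⟨uP e f a - 1, sub_mem (huA a) (one_mem _), ?_⟩
      have h1 := Pool.Agent.R724.GF.det n k _ P e f hP hF he hf a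
      have h2 : univ.filter (fun b : Fin (min k (n - k)) => b ≤ a) = {a} := by
        ext b
        simp only [mem_filter, mem_univ, true_and, mem_singleton]
        constructor
        · intro h
          have h' : (b : ℕ) ≤ a := h
          exact Fin.ext (by omega)
        · intro h; rw [h]
      rw [h2, sum_singleton] at h1
      exact h1
    · set b : Fin (min k (n - k)) := ⟨(a : ℕ) - 1, by have := a.2; omega⟩ with hb
      refine ⟨uP e f a - uP e f b, sub_mem (huA a) (huA b), ?_⟩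
      have h1 := Pool.Agent.R724.GF.det n k _ P e f hP hF he hf a
      have h1' := Pool.Agent.R724.GF.det n k _ P e f hP hF he hf b
      have h2 : univ.filter (fun c : Fin (min k (n - k)) => c ≤ a)
          = insert a (univ.filter (fun c : Fin (min k (n - k)) => c ≤ b)) := by
        ext c
        simp only [mem_filter, mem_univ, true_and, mem_insert]
        constructor
        · intro h
          have h' : (c : ℕ) ≤ a := h
          rcases h'.eq_or_lt with h'' | h''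
          · exact Or.inl (Fin.ext h'')
          · right
            show (c : ℕ) ≤ (a : ℕ) - 1
            omega
        · rintro (h | h)
          · rw [h]
          · have h' : (c : ℕ) ≤ (a : ℕ) - 1 := h
            show (c : ℕ) ≤ a
            omega
      have h3 : a ∉ univ.filter (fun c : Fin (min k (n - k)) => c ≤ b) := by
        simp only [mem_filter, mem_univ, true_and]
        intro h
        have h' : (a : ℕ) ≤ (a : ℕ) - 1 := h
        omega
      rw [h2, sum_insert h3] at h1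
      have h4 := sub_mem h1 h1'
      have h5 : (uP e f a - 1 - MvPolynomial.C (2 * Complex.I) * (L (vecMulVec (f a) (e a))
            + ∑ c ∈ univ.filter (fun c : Fin (min k (n - k)) => c ≤ b), L (vecMulVec (f c) (e c))))
          - (uP e f b - 1 - MvPolynomial.C (2 * Complex.I)
            * ∑ c ∈ univ.filter (fun c : Fin (min k (n - k)) => c ≤ b), L (vecMulVec (f c) (e c)))
          = uP e f a - uP e f b - MvPolynomial.C (2 * Complex.I) * L (vecMulVec (f a) (e a)) := by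
        ring
      rw [h5] at h4
      exact h4
  choose w hwA hw2 using hw
  set W : Pol n := ∑ a, MvPolynomial.C ((t a : ℝ) : ℂ) * w a with hW
  have hCA : ∀ c : ℂ, MvPolynomial.C c ∈ A := fun c => A.algebraMap_mem c
  have hWA : W ∈ A := sum_mem fun a _ => mul_mem (hCA _) (hwA a)
  have hWL : W - MvPolynomial.C (2 * Complex.I) * L Y ∈ mm P ^ 2 ⊔ IG n k := by
    have h1 : W - MvPolynomial.C (2 * Complex.I) * L Y
        = ∑ a, MvPolynomial.C ((t a : ℝ) : ℂ)
          * (w a - MvPolynomial.C (2 * Complex.I) * L (vecMulVec (f a) (e a))) := by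
      conv_lhs => rw [hYs]
      rw [L_sum, hW, mul_sum, ← sum_sub_distrib]
      refine sum_congr rfl fun a _ => ?_
      rw [L_smul]
      ring
    rw [h1]
    exact sum_mem fun a _ => Ideal.mul_mem_left _ _ (hw2 a)
  have hLm : MvPolynomial.C (2 * Complex.I) * L Y ∈ mm P := by
    rw [mem_mm, map_mul, hYs, L_sum, map_sum]
    have : ∀ a, ev P (L (t a • vecMulVec (f a) (e a))) = 0 := by
      intro a
      rw [L_smul, map_mul, ev_L_frame e f hF he, mul_zero]
    simp only [this, sum_const_zero, mul_zero]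
  have hWm : W ∈ mm P := by
    have h1 := hle hWL
    have h2 : W = (W - MvPolynomial.C (2 * Complex.I) * L Y)
        + MvPolynomial.C (2 * Complex.I) * L Y := by ring
    rw [h2]
    exact add_mem h1 hLm
  refine ⟨e, f, hF, he, hf, hu1, m, W, hWA, hWm, hm, ?_⟩
  have h1 := hm _ (pow_sub_pow_mem hWm hLm hWL m)
  rw [map_sub, sub_eq_zero] at h1
  rw [h1, mul_pow, ← map_pow, ← MvPolynomial.smul_eq_C_mul, map_smul, smul_eq_mul]
  refine mul_ne_zero (pow_ne_zero _ ?_) hne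
  simp

/-- The algebraic core. -/
theorem algBox
    (hkn : k ≤ n) (S : Finset (Pt n)) (hS : ∀ P ∈ S, P ∈ Gr n k)
    (Φ : Pol n →ₗ[ℂ] ℂ) (K : ℕ) (hK : ∀ p, (∀ P ∈ S, p ∈ mm P ^ K) → Φ p = 0)
    (hIG : ∀ p ∈ IG n k, Φ p = 0) (hΦ : Φ ≠ 0) :
    ∃ (e f : Fin (min k (n - k)) → Fin n → ℝ), Frame e f ∧ ∃ R0 : ℕ,
      ∀ x : Fin (min k (n - k)) → ℕ, ∃ y : Fin (min k (n - k)) → ℕ,
        (∀ i, x i ≤ y i ∧ y i ≤ x i + R0) ∧ Φ (∏ j, uP e f j ^ y j) ≠ 0 := by
  classical
  -- localisation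
  have hθ : ∀ P ∈ S, ∃ θ : Pol n, θ - 1 ∈ mm P ^ K ∧ ∀ Q ∈ S, Q ≠ P → θ ∈ mm Q ^ K := by
    intro P _
    obtain ⟨θ, _, h1, h2⟩ := exists_loc ⊤ S P K (fun Q _ hne => by
      obtain ⟨v, hv⟩ := exists_sep hne.symm
      exact ⟨v, Algebra.mem_top, hv⟩)
    exact ⟨θ, h1, h2⟩
  choose! θ hθ1 hθ2 using hθ
  -- a point where the localised functional is nonzero
  have hpt : ∃ P ∈ S, ∃ p, Φ (θ P * p) ≠ 0 := by
    by_contra hno
    push Not at hno
    apply hΦ
    refine LinearMap.ext fun p => ?_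
    have h1 : Φ (p - ∑ P ∈ S, θ P * p) = 0 := by
      apply hK
      intro Q hQ
      have e1 : p - ∑ P ∈ S, θ P * p = -(θ Q - 1) * p - ∑ P ∈ S.erase Q, θ P * p := by
        rw [← Finset.add_sum_erase S _ hQ]
        ring
      rw [e1]
      refine sub_mem (Ideal.mul_mem_right _ _ (neg_mem (hθ1 Q hQ))) (sum_mem fun P hP => ?_)
      exact Ideal.mul_mem_right _ _
        (hθ2 P (mem_of_mem_erase hP) Q hQ (ne_of_mem_erase hP).symm)
    rw [map_sub, map_sum, sum_eq_zero (fun P hP => hno P hP p), sub_zero] at h1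
    rw [h1]
    rfl
  obtain ⟨P, hP, p0, hp0⟩ := hpt
  set Ψ : Pol n →ₗ[ℂ] ℂ := Φ ∘ₗ (LinearMap.mulLeft ℂ (θ P)) with hΨdef
  have hΨap : ∀ p, Ψ p = Φ (θ P * p) := fun p => rfl
  have hΨK : ∀ p ∈ mm P ^ K ⊔ IG n k, Ψ p = 0 := by
    intro p hp
    obtain ⟨a, ha, b, hb, hab⟩ := Submodule.mem_sup.mp hp
    rw [← hab, map_add, hΨap, hΨap, hIG _ (Ideal.mul_mem_left _ _ hb), add_zero]
    apply hK
    intro Q hQ
    by_cases hQP : Q = P
    · rw [hQP]; exact Ideal.mul_mem_left _ _ ha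
    · exact Ideal.mul_mem_right _ _ (hθ2 P hP Q hQ hQP)
  have hΨ0 : Ψ ≠ 0 := by
    intro h
    apply hp0
    rw [← hΨap, h]
    rfl
  obtain ⟨e, f, hF, he, hf, hu1, m, w, hwA, hwm, hm, hne⟩ :=
    exists_frame hkn (hS P hP) Ψ K hΨK hΨ0
  refine ⟨e, f, hF, ?_⟩
  set A := Algebra.adjoin ℂ (Set.range (uP e f)) with hA
  have huA : ∀ j, uP e f j ∈ A := fun j => Algebra.subset_adjoin ⟨j, rfl⟩
  have hCA : ∀ c : ℂ, MvPolynomial.C c ∈ A := fun c => A.algebraMap_mem c
  -- localisation inside the algebra of the minors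
  obtain ⟨r, hrA, hr1, hr2⟩ := exists_loc A S P K (fun Q hQ hne => by
    have hj : ∃ j, uu e f j Q ≠ 1 := by
      by_contra hno
      push Not at hno
      exact hne (Pool.Agent.R141.GF.sep n k P Q hkn (hS P hP) (hS Q hQ) e f hF he hf hno)
    obtain ⟨j, hj⟩ := hj
    have hne1 : 1 - uu e f j Q ≠ 0 := sub_ne_zero.mpr (Ne.symm hj)
    refine ⟨MvPolynomial.C (1 - uu e f j Q)⁻¹ * (uP e f j - MvPolynomial.C (uu e f j Q)),
      mul_mem (hCA _) (sub_mem (huA j) (hCA _)), ?_, ?_⟩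
    · rw [map_mul, map_sub, ev_C, ev_C, hu1, inv_mul_cancel₀ hne1]
    · rw [map_mul, map_sub, ev_C, ev_C, ev_uP, sub_self, mul_zero])
  have hrΦ : ∀ p, Φ (r * p) = Ψ p := by
    intro p
    rw [hΨap, ← sub_eq_zero, ← map_sub, ← sub_mul]
    apply hK
    intro Q hQ
    apply Ideal.mul_mem_right
    by_cases hQP : Q = P
    · rw [hQP]
      have : r - θ P = (r - 1) - (θ P - 1) := by ring
      rw [this]
      exact sub_mem hr1 (hθ1 P hP)
    · exact sub_mem (hr2 Q hQ hQP) (hθ2 P hP Q hQ hQP)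
  -- the polynomial in the minors
  have hG : r * w ^ m ∈ A := mul_mem hrA (pow_mem hwA m)
  rw [hA, Algebra.adjoin_range_eq_range_aeval] at hG
  obtain ⟨g, hg⟩ := hG
  have hg' : MvPolynomial.aeval (uP e f) g = r * w ^ m := hg
  set R0 : ℕ := g.support.sup (fun ρ => univ.sup (fun i => ρ i)) with hR0
  refine ⟨R0, fun x => ?_⟩
  set ux : Pol n := ∏ j, uP e f j ^ x j with hux
  have hux1 : ux - 1 ∈ mm P := by
    rw [mem_mm, map_sub, hux, map_prod, map_one]
    simp [hu1]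
  have hval : Φ (MvPolynomial.aeval (uP e f) g * ux) ≠ 0 := by
    rw [hg', mul_assoc, hrΦ]
    have e1 : w ^ m * ux = w ^ m + w ^ m * (ux - 1) := by ring
    rw [e1, map_add]
    have h2 : Ψ (w ^ m * (ux - 1)) = 0 := by
      apply hm
      apply Ideal.mem_sup_left
      rw [pow_succ]
      exact Ideal.mul_mem_mul (Ideal.pow_mem_pow hwm m) hux1
    rw [h2, add_zero]
    exact hne
  have hexp : MvPolynomial.aeval (uP e f) g * ux
      = ∑ ρ ∈ g.support, MvPolynomial.C (MvPolynomial.coeff ρ g) * ∏ j, uP e f j ^ (x j + ρ j) := by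
    rw [MvPolynomial.aeval_def, MvPolynomial.eval₂_eq', sum_mul]
    refine sum_congr rfl fun ρ _ => ?_
    rw [hux, mul_assoc, ← prod_mul_distrib]
    congr 1
    refine prod_congr rfl fun j _ => ?_
    rw [← pow_add, add_comm]
  rw [hexp, map_sum] at hval
  obtain ⟨ρ, hρ, hρ2⟩ := exists_ne_zero_of_sum_ne_zero hval
  refine ⟨fun j => x j + ρ j, fun i => ⟨Nat.le_add_right _ _, ?_⟩, ?_⟩
  · have h1 : ρ i ≤ univ.sup (fun i => ρ i) := le_sup (f := fun i => ρ i) (mem_univ i)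
    have h2 : univ.sup (fun i => ρ i) ≤ R0 := le_sup (f := fun ρ => univ.sup (fun i => ρ i)) hρ
    show x i + ρ i ≤ x i + R0
    omega
  · intro h0
    apply hρ2
    rw [← MvPolynomial.smul_eq_C_mul, map_smul, h0, smul_zero]

end

end Pool.Agent.R246.GF
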