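import Mathlib
import Pool.Agent.R246.GF.Base

/-!
# Project GF: orders of vanishing, smoothness of polynomials
-/

namespace Pool.Agent.R246.GF

open scoped Topology
open Matrix Filter Finset Asymptotics

noncomputable section

variable {n k : ℕ}

theorem ev_smooth (p : Pol n) : ContDiff ℝ ((⊤ : ℕ∞) : WithTop ℕ∞) (fun X : Pt n => ev X p) := by
  induction p using MvPolynomial.induction_on with
  | C a => simp only [ev_C]; exact contDiff_const
  | add p q hp hq => simp only [map_add]; exact hp.add hq
  | mul_X p rs hp =>
    simp only [map_mul, ev_X]
    refine hp.mul ?_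
    exact Complex.ofRealCLM.contDiff.comp (contDiff_apply ℝ ℝ rs)

theorem ev_O1 (P : Pt n) (p : Pol n) :
    (fun X : Pt n => ev X p) =O[𝓝 P] (fun _ => (1 : ℝ)) :=
  (ev_smooth p).continuous.continuousAt.isBigO_one ℝ

theorem big : SBIG := by
  intro n P K
  induction K with
  | zero =>
    intro p _
    simpa using ev_O1 P p
  | succ K ih =>
    intro p hp
    rw [pow_succ] at hp
    refine Submodule.mul_induction_on hp ?_ ?_
    · intro a ha b hb
      have h1 := ih a ha
      have h2 : (fun X => ev X b) =O[𝓝 P] (fun X => ‖X - P‖) := by
        refine Submodule.span_induction (p := fun b _ =>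
          (fun X => ev X b) =O[𝓝 P] (fun X => ‖X - P‖)) ?_ ?_ ?_ ?_ hb
        · rintro _ ⟨rs, rfl⟩
          refine IsBigO.of_bound 1 (Eventually.of_forall fun X => ?_)
          simp only [map_sub, ev_X, ev_C]
          rw [← Complex.ofReal_sub, Complex.norm_real, one_mul, norm_norm]
          exact norm_le_pi_norm (X - P) rs
        · simp only [map_zero]
          exact isBigO_zero _ _
        · intro x y _ _ hx hy
          simp only [map_add]
          exact hx.add hy
        · intro a x _ hx
          simp only [smul_eq_mul, map_mul]
          have := (ev_O1 P a).mul hx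
          simpa using this
      have h3 := h1.mul h2
      simp only [map_mul]
      refine h3.congr_right fun X => ?_
      rw [pow_succ]
    · intro a b ha hb
      simp only [map_add]
      exact ha.add hb

end

end Pool.Agent.R246.GF
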