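import Mathlib
import Pool.Agent.R161.GR.Defs
import Pool.Agent.R246.GF.Asm
import Pool.Agent.R246.GF.Big
import Pool.Agent.R560.GR.Van

/-!
# Project GF: the box theorem for generalized functions with finite support
-/

open scoped ContDiff Matrix Matrix.Norms.Elementwise
open Filter Pool.Agent.R161.GR

namespace Pool.Agent.R246.BX

noncomputable section

variable {n k : ℕ}

/-- the point of a matrix -/
def cv (X : Mt n) : GF.Pt n := fun rs => X rs.1 rs.2

theorem M_cv (X : Mt n) : GF.M (cv X) = X := by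
  ext i j
  rfl

theorem cv_inj : Function.Injective (cv : Mt n → GF.Pt n) := by
  intro X Y h
  rw [← M_cv X, ← M_cv Y, h]

theorem cv_contDiff : ContDiff ℝ ∞ (cv : Mt n → GF.Pt n) := by
  rw [contDiff_pi]
  intro rs
  exact ((ContinuousLinearMap.proj (R := ℝ) (φ := fun _ : Fin n => ℝ) rs.2).comp
    (ContinuousLinearMap.proj (R := ℝ) (φ := fun _ : Fin n => (Fin n → ℝ)) rs.1)).contDiff

theorem ev_sm (p : GF.Pol n) : ContDiff ℝ ∞ (fun X : Mt n => GF.ev (cv X) p) :=
  (GF.ev_smooth p).comp cv_contDiff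

/-- trace and rank of a projection -/
theorem trace_eq_rank (P : Mt n) (h : P * P = P) : P.trace = P.rank := by
  have hI : IsIdempotentElem (Matrix.toLin' P) := by
    show Matrix.toLin' P * Matrix.toLin' P = Matrix.toLin' P
    rw [Module.End.mul_eq_comp, ← Matrix.toLin'_mul, h]
  have := (LinearMap.IsIdempotentElem.isProj_range (Matrix.toLin' P) hI).trace
  rw [Matrix.trace_toLin'_eq] at this
  rw [this]
  rfl

theorem cv_mem {P : Mt n} (hP : P ∈ Gr n k) : cv P ∈ GF.Gr n k := by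
  obtain ⟨h1, h2, h3⟩ := hP
  refine ⟨?_, ?_, ?_⟩
  · rw [M_cv]; exact h2
  · rw [M_cv]; exact h1
  · rw [M_cv, trace_eq_rank P h1, h3]

/-- evaluation at a point, as an algebra homomorphism -/
def evP (P : Gr n k) : Sm n k →ₐ[ℂ] ℂ :=
  (Pi.evalAlgHom ℂ (fun _ : Gr n k => ℂ) P).comp (Sm n k).val

/-- restriction of polynomials to the Grassmannian -/
def hom (n k : ℕ) : GF.Pol n →ₐ[ℂ] Sm n k :=
  MvPolynomial.aeval fun rs => Pb n k rs.1 rs.2

theorem hom_apply (p : GF.Pol n) (P : Gr n k) : (hom n k p).1 P = GF.ev (cv P.1) p := by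
  have : (evP P).comp (hom n k) = GF.ev (cv P.1) := by
    apply MvPolynomial.algHom_ext
    intro rs
    rw [GF.ev_X]
    show evP P (hom n k (MvPolynomial.X rs)) = _
    rw [hom, MvPolynomial.aeval_X]
    rfl
  have h2 := congrArg (fun φ : GF.Pol n →ₐ[ℂ] ℂ => φ p) this
  exact h2

theorem hom_eq_res (p : GF.Pol n) :
    hom n k p = res k (fun X => GF.ev (cv X) p) (ev_sm p) := by
  apply Subtype.ext
  funext P
  rw [hom_apply]
  rfl

theorem hom_IG {p : GF.Pol n} (hp : p ∈ GF.IG n k) : hom n k p = 0 := by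
  apply Subtype.ext
  funext P
  rw [hom_apply]
  exact hp _ (cv_mem P.2)

/-- products of `m` elements generate the `m`-th power -/
theorem pow_le_span {R : Type*} [CommRing R] (I : Ideal R) (m : ℕ) :
    I ^ m ≤ Ideal.span {z | ∃ y : Fin m → R, (∀ i, y i ∈ I) ∧ z = ∏ i, y i} := by
  induction m with
  | zero =>
    rw [pow_zero, Ideal.one_eq_top]
    intro x _
    have h1 : (1 : R) ∈ Ideal.span {z | ∃ y : Fin 0 → R, (∀ i, y i ∈ I) ∧ z = ∏ i, y i} :=
      Ideal.subset_span ⟨fun i => i.elim0, fun i => i.elim0, by simp⟩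
    have := Ideal.mul_mem_left _ x h1
    rwa [mul_one] at this
  | succ m ih =>
    rw [pow_succ, Ideal.mul_le]
    intro a ha b hb
    refine Submodule.span_induction (p := fun a _ => a * b ∈ Ideal.span
      {z | ∃ y : Fin (m + 1) → R, (∀ i, y i ∈ I) ∧ z = ∏ i, y i}) ?_ ?_ ?_ ?_ (ih ha)
    · rintro _ ⟨y, hy, rfl⟩
      refine Ideal.subset_span ⟨Fin.snoc y b, ?_, ?_⟩
      · intro i
        refine Fin.lastCases ?_ (fun j => ?_) i
        · rw [Fin.snoc_last]; exact hb
        · rw [Fin.snoc_castSucc]; exact hy j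
      · rw [Fin.prod_univ_castSucc, Fin.snoc_last]
        simp only [Fin.snoc_castSucc]
    · rw [zero_mul]; exact zero_mem _
    · intro a a' _ _ h h'
      rw [add_mul]; exact add_mem h h'
    · intro c a _ h
      rw [smul_eq_mul, mul_assoc]; exact Ideal.mul_mem_left _ _ h

theorem van_zero (N : ℕ) (P : Mt n) : Van N P (fun _ => (0 : ℂ)) := by
  intro j _
  simp

/-- elements of a power of the maximal ideal vanish to high order -/
theorem van_of_mem {P : Mt n} {N : ℕ} {p : GF.Pol n} (hp : p ∈ GF.mm (cv P) ^ (N + 1)) :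
    Van N P (fun X => GF.ev (cv X) p) := by
  obtain ⟨v1, v2, _, v4⟩ := Pool.Agent.R560.GR.s_van n N P
  refine Submodule.span_induction (p := fun p _ => Van N P (fun X => GF.ev (cv X) p))
    ?_ ?_ ?_ ?_ (pow_le_span _ _ hp)
  · rintro _ ⟨y, hy, rfl⟩
    simp only [map_prod]
    exact v2 (N + 1) (fun i X => GF.ev (cv X) (y i)) (fun i => ev_sm _)
      (fun i => GF.mem_mm.mp (hy i)) (Nat.lt_succ_self N)
  · simp only [map_zero]
    exact van_zero N P
  · intro a b _ _ ha hb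
    simp only [map_add]
    exact v4 _ _ (ev_sm a) (ev_sm b) ha hb
  · intro c a _ ha
    simp only [smul_eq_mul, map_mul]
    have := v1 _ _ (ev_sm a) (ev_sm c) ha
    have e : (fun X : Mt n => GF.ev (cv X) c * GF.ev (cv X) a)
        = (fun X => GF.ev (cv X) a * GF.ev (cv X) c) := by
      funext X; ring
    rw [e]
    exact this

/-- Taylor polynomials -/
theorem taylor (hhom : S_hom) (H : Mt n → ℂ) (hH : ContDiff ℝ ∞ H) (P : Mt n) (d : ℕ) :
    ∃ p : GF.Pol n, ∀ j < d, iteratedFDeriv ℝ j (fun X => H X - GF.ev (cv X) p) P = 0 := by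
  induction d with
  | zero => exact ⟨0, fun j hj => absurd hj (Nat.not_lt_zero j)⟩
  | succ d ih =>
    obtain ⟨p, hp⟩ := ih
    obtain ⟨c, hc⟩ := hhom n d P (fun X => H X - GF.ev (cv X) p) (hH.sub (ev_sm p)) hp
    refine ⟨p + ∑ s : Fin d → Fin n × Fin n, MvPolynomial.C (c s) *
      ∏ i, (MvPolynomial.X (s i) - MvPolynomial.C ((P (s i).1 (s i).2 : ℝ) : ℂ)), ?_⟩
    intro j hj
    have e : (fun X : Mt n => H X - GF.ev (cv X) (p + ∑ s : Fin d → Fin n × Fin n,
        MvPolynomial.C (c s) *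
        ∏ i, (MvPolynomial.X (s i) - MvPolynomial.C ((P (s i).1 (s i).2 : ℝ) : ℂ))))
        = fun x : Mt n => (H x - GF.ev (cv x) p) - ∑ s : Fin d → Fin n × Fin n,
          c s * ∏ i, ((x (s i).1 (s i).2 : ℂ) - (P (s i).1 (s i).2 : ℂ)) := by
      funext x
      rw [map_add, map_sum]
      simp only [map_mul, map_prod, map_sub, GF.ev_C, GF.ev_X]
      rw [sub_add_eq_sub_sub]
      rfl
    rw [e]
    exact hc j (Nat.lt_succ_iff.mp hj)

/-- the minors -/
def eqv {κ : ℕ} (j : Fin κ) : Fin ((j : ℕ) + 1) ≃ {a : Fin κ // a ≤ j} where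
  toFun i := ⟨Fin.castLE (Nat.succ_le_of_lt j.2) i, by
    rw [Fin.le_def]
    exact Nat.lt_succ_iff.mp i.2⟩
  invFun a := ⟨a.1.1, Nat.lt_succ_iff.mpr (Fin.le_def.mp a.2)⟩
  left_inv i := by
    apply Fin.ext
    rfl
  right_inv a := by
    apply Subtype.ext
    apply Fin.ext
    rfl

theorem hom_uP {κ : ℕ} (e f : Fin κ → Fin n → ℝ) (j : Fin κ) :
    hom n k (GF.uP e f j) = ud e f (Pb n k) j := by
  unfold GF.uP GF.lead ud
  rw [AlgHom.map_det, ← Matrix.det_submatrix_equiv_self (eqv j)]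
  congr 1
  ext1 a b
  simp only [AlgHom.mapMatrix_apply, Matrix.map_apply, Matrix.submatrix_apply, GF.BP,
    Matrix.of_apply, map_sum, map_mul]
  refine Finset.sum_congr rfl fun r _ => Finset.sum_congr rfl fun s _ => ?_
  have h1 : hom n k (MvPolynomial.X (r, s)) = Pb n k r s := by
    rw [hom, MvPolynomial.aeval_X]
  have h2 : ∀ c : ℂ, hom n k (MvPolynomial.C c) = algebraMap ℂ (Sm n k) c := by
    intro c
    rw [hom, MvPolynomial.aeval_C]
  rw [h1, h2, h2]
  have h3 : ∀ (a : Fin ((j : ℕ) + 1)) (r : Fin n),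
      Zm e f r ((eqv j a).1) = GF.zz e f (Fin.castLE (Nat.succ_le_of_lt j.2) a) r := by
    intro a r
    rfl
  rw [h3, h3]
  ring

theorem s_box (hord : S_ord) (hhom : S_hom) : S_box := by
  classical
  intro n k T hk hkn hT hT0 S hS hsupp
  obtain ⟨N, hN⟩ := hord n k T hT S hS hsupp
  set S' : Finset (GF.Pt n) := hS.toFinset.image (fun P : Gr n k => cv P.1) with hS'
  have hmem : ∀ P : Gr n k, P ∈ S → cv P.1 ∈ S' := fun P hP =>
    Finset.mem_image.mpr ⟨P, hS.mem_toFinset.mpr hP, rfl⟩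
  have hS'mem : ∀ P ∈ S', P ∈ GF.Gr n k := by
    intro P hP
    obtain ⟨Q, _, rfl⟩ := Finset.mem_image.mp hP
    exact cv_mem Q.2
  have hvan4 := fun P : Mt n => (Pool.Agent.R560.GR.s_van n N P).2.2.2
  set Φ : GF.Pol n →ₗ[ℂ] ℂ := T ∘ₗ (hom n k).toLinearMap with hΦ
  have hΦa : ∀ p, Φ p = T (hom n k p) := fun p => rfl
  have hK : ∀ p, (∀ P ∈ S', p ∈ GF.mm P ^ (N + 1)) → Φ p = 0 := by
    intro p hp
    rw [hΦa, hom_eq_res]
    apply hN
    intro P hP
    exact van_of_mem (hp _ (hmem P hP))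
  have hIG : ∀ p ∈ GF.IG n k, Φ p = 0 := by
    intro p hp
    rw [hΦa, hom_IG hp, map_zero]
  have hΦ0 : Φ ≠ 0 := by
    intro h0
    apply hT0
    refine LinearMap.ext fun h => ?_
    obtain ⟨h, H, hH, hHh⟩ := h
    have e0 : (⟨h, H, hH, hHh⟩ : Sm n k) = res k H hH := by
      apply Subtype.ext
      funext P
      exact hHh P
    rw [e0, LinearMap.zero_apply]
    -- Taylor polynomials and localisation
    have hloc : ∀ P : Gr n k, P ∈ S → ∃ θ : GF.Pol n, θ - 1 ∈ GF.mm (cv P.1) ^ (N + 1) ∧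
        ∀ Q ∈ S', Q ≠ cv P.1 → θ ∈ GF.mm Q ^ (N + 1) := by
      intro P _
      obtain ⟨θ, _, h1, h2⟩ := GF.exists_loc ⊤ S' (cv P.1) (N + 1) (fun Q _ hne => by
        obtain ⟨v, hv⟩ := GF.exists_sep hne.symm
        exact ⟨v, Algebra.mem_top, hv⟩)
      exact ⟨θ, h1, h2⟩
    choose! θ hθ1 hθ2 using hloc
    choose p hp using fun P : Gr n k => taylor hhom H hH P.1 (N + 1)
    set q : GF.Pol n := ∑ P ∈ hS.toFinset, θ P * p P with hq
    have key : T (res k (fun X => H X - GF.ev (cv X) q) (hH.sub (ev_sm q))) = 0 := by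
      apply hN
      intro P hP
      have hPS : P ∈ hS.toFinset := hS.mem_toFinset.mpr hP
      have e1 : p P - q = -(θ P - 1) * p P - ∑ Q ∈ hS.toFinset.erase P, θ Q * p Q := by
        rw [hq, ← Finset.add_sum_erase _ _ hPS]
        ring
      have hmm : p P - q ∈ GF.mm (cv P.1) ^ (N + 1) := by
        rw [e1]
        refine sub_mem (Ideal.mul_mem_right _ _ (neg_mem (hθ1 P hP))) (sum_mem fun Q hQ => ?_)
        have hQS : Q ∈ S := hS.mem_toFinset.mp (Finset.mem_of_mem_erase hQ)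
        refine Ideal.mul_mem_right _ _ (hθ2 Q hQS _ (hmem P hP) ?_)
        intro hne
        exact (Finset.ne_of_mem_erase hQ) (Subtype.ext (cv_inj hne)).symm
      have h1 : Van N P.1 (fun X => H X - GF.ev (cv X) (p P)) := fun j hj =>
        hp P j (Nat.lt_succ_of_le hj)
      have h2 := hvan4 P.1 _ _ (hH.sub (ev_sm (p P))) (ev_sm (p P - q)) h1 (van_of_mem hmm)
      have e2 : (fun X : Mt n => H X - GF.ev (cv X) q)
          = fun X => (H X - GF.ev (cv X) (p P)) + GF.ev (cv X) (p P - q) := by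
        funext X
        rw [map_sub]
        ring
      rw [e2]
      exact h2
    have e3 : res k H hH = res k (fun X => H X - GF.ev (cv X) q) (hH.sub (ev_sm q))
        + hom n k q := by
      apply Subtype.ext
      funext P
      show H P.1 = (H P.1 - GF.ev (cv P.1) q) + (hom n k q).1 P
      rw [hom_apply]
      ring
    rw [e3, map_add, key, zero_add, ← hΦa, h0, LinearMap.zero_apply]
  obtain ⟨e, f, hF, D, hD⟩ := GF.algBox (le_of_lt hkn) S' hS'mem Φ (N + 1) hK hIG hΦ0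
  refine ⟨e, f, hF, D, ?_⟩
  intro μ
  obtain ⟨ν, hν, hne⟩ := hD μ
  refine ⟨ν, hν, ?_⟩
  rw [hΦa, map_prod] at hne
  simp only [map_pow, hom_uP] at hne
  exact hne

end

end Pool.Agent.R246.BX
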