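import Mathlib
import Pool.Agent.R161.GR.Defs
import Pool.Agent.R141.GF.Cnt

/-!
# Project GF: the counting statement of helper161's formulation
-/

namespace Pool.Agent.R246.GF

open scoped Topology
open Filter

theorem s_dens : Pool.Agent.R161.GR.S_dens := by
  intro κ D A hA h
  rcases Nat.eq_zero_or_pos κ with h0 | h0
  · subst h0
    obtain ⟨ν, _, hν⟩ := h (fun i => i.elim0)
    have hAu : ∀ l : Fin 0 → ℕ, l ∈ A := fun l => by
      have : l = Pool.Agent.R161.GR.lw ν := Subsingleton.elim _ _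
      rw [this]; exact hν
    have h1 : ∀ m : ℕ, (Nat.card {l : Fin 0 → ℕ | l ∈ A ∧ ∑ a, l a ≤ 2 * m} : ℝ) /
        (Nat.card {l : Fin 0 → ℕ | l ∈ Pool.Agent.R161.GR.Lam 0 ∧ ∑ a, l a ≤ 2 * m} : ℝ) = 1 := by
      intro m
      have e1 : {l : Fin 0 → ℕ | l ∈ A ∧ ∑ a, l a ≤ 2 * m} = Set.univ := by
        ext l; simp [hAu l]
      have e2 : {l : Fin 0 → ℕ | l ∈ Pool.Agent.R161.GR.Lam 0 ∧ ∑ a, l a ≤ 2 * m} = Set.univ := by
        ext l; simp [hA (hAu l)]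
      rw [e1, e2]
      simp
    simp only [h1]
    rw [liminf_const]
    exact one_pos
  · have h1 := Pool.Agent.R141.GF.cnt κ h0 A D (fun x => by
      obtain ⟨ν, h1, h2⟩ := h x
      exact ⟨ν, h1, h2⟩)
    have h2 : ∀ m : ℕ, {l : Fin κ → ℕ | l ∈ A ∧ ∑ a, l a ≤ 2 * m}
        = {l : Fin κ → ℕ | l ∈ Lam κ ∧ l ∈ A ∧ ∑ i, l i ≤ 2 * m} := by
      intro m
      ext l
      constructor
      · rintro ⟨h3, h4⟩
        exact ⟨hA h3, h3, h4⟩
      · rintro ⟨_, h3, h4⟩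
        exact ⟨h3, h4⟩
    simp only [h2]
    exact h1

end Pool.Agent.R246.GF
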